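import Pool.Agent.H317.GR.StmD

/-!
# Project GR, part D, `S_STP` (helper295 for helper317): the key step for Steinberg systems
-/

set_option autoImplicit false

namespace Pool.Agent.H295.GR

open Module
open Pool.Agent.H317.GR

section
variable {K V ι : Type} [Field K] [AddCommGroup V] [Module K V]

/-- commuting nilpotent operators modulo a stable subspace -/
theorem rel_nil [DecidableEq ι] (S : Finset ι) (N : ι → Module.End K V)
    (hnil : ∀ a ∈ S, IsNilpotent (N a)) (hcomm : ∀ a ∈ S, ∀ b ∈ S, N a * N b = N b * N a)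
    (W : Submodule K V) (hst : ∀ a ∈ S, ∀ v ∈ W, N a v ∈ W) (hW : W ≠ ⊤) :
    ∃ v, v ∉ W ∧ ∀ a ∈ S, N a v ∈ W := by
  induction S using Finset.induction_on with
  | empty =>
    obtain ⟨v, -, hv⟩ := SetLike.exists_of_lt (lt_top_iff_ne_top.2 hW)
    exact ⟨v, hv, fun a ha => absurd ha (Finset.notMem_empty a)⟩
  | insert a S _ ih =>
    obtain ⟨v, hv, hvS⟩ := ih (fun b hb => hnil b (Finset.mem_insert_of_mem hb))
      (fun b hb c hc => hcomm b (Finset.mem_insert_of_mem hb) c (Finset.mem_insert_of_mem hc))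
      (fun b hb => hst b (Finset.mem_insert_of_mem hb))
    have haI : a ∈ insert a S := Finset.mem_insert_self a S
    have hex : ∃ p : ℕ, (N a ^ p) v ∈ W := by
      obtain ⟨p, hp⟩ := hnil a haI
      refine ⟨p, ?_⟩
      rw [hp, LinearMap.zero_apply]
      exact W.zero_mem
    classical
    let p := Nat.find hex
    have hp : (N a ^ p) v ∈ W := Nat.find_spec hex
    have hp0 : p ≠ 0 := by
      intro h0
      rw [h0, pow_zero] at hp
      exact hv hp
    obtain ⟨r, hr⟩ := Nat.exists_eq_succ_of_ne_zero hp0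
    have hr1 : (N a ^ r) v ∉ W := Nat.find_min hex (by show r < p; omega)
    refine ⟨(N a ^ r) v, hr1, fun b hb => ?_⟩
    have hpst : ∀ s : ℕ, ∀ w ∈ W, (N a ^ s) w ∈ W := by
      intro s
      induction s with
      | zero => intro w hw; rw [pow_zero]; exact hw
      | succ s ihs =>
        intro w hw
        rw [pow_succ']
        exact hst a haI _ (ihs w hw)
    rcases Finset.mem_insert.1 hb with rfl | hbS
    · have h1 : N b ((N b ^ r) v) = (N b ^ p) v := by
        rw [hr, Nat.succ_eq_add_one, pow_succ']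
        rfl
      rw [h1]
      exact hp
    · have h1 : N b * N a ^ r = N a ^ r * N b :=
        (Commute.pow_right (show Commute (N b) (N a) from hcomm b hb a haI) r)
      have h2 : N b ((N a ^ r) v) = (N a ^ r) (N b v) := by
        have := LinearMap.congr_fun h1 v
        exact this
      rw [h2]
      exact hpst r _ (hvS b hbS)

/-! ### operators on subquotients -/

/-- the subquotient -/
abbrev SQ (A B : Submodule K V) : Type := ↥B ⧸ (A.comap B.subtype)

/-- the operator `g` on `B / A` is induced by `f` -/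
def Rel {A B : Submodule K V} (g : Module.End K (SQ A B)) (f : Module.End K V) : Prop :=
  ∀ b (hb : b ∈ B), ∃ hb' : f b ∈ B,
    g ((A.comap B.subtype).mkQ ⟨b, hb⟩) = (A.comap B.subtype).mkQ ⟨f b, hb'⟩

variable {A B : Submodule K V}

theorem Rel.mul {g g' : Module.End K (SQ A B)} {f f' : Module.End K V} (h : Rel g f)
    (h' : Rel g' f') : Rel (g * g') (f * f') := by
  intro b hb
  obtain ⟨h1, h2⟩ := h' b hb
  obtain ⟨h3, h4⟩ := h (f' b) h1
  refine ⟨h3, ?_⟩
  show g (g' _) = _
  rw [h2, h4]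
  rfl

theorem Rel.one : Rel (1 : Module.End K (SQ A B)) (1 : Module.End K V) :=
  fun _ hb => ⟨hb, rfl⟩

theorem Rel.pow {g : Module.End K (SQ A B)} {f : Module.End K V} (h : Rel g f) (p : ℕ) :
    Rel (g ^ p) (f ^ p) := by
  induction p with
  | zero => rw [pow_zero, pow_zero]; exact Rel.one
  | succ p ih => rw [pow_succ, pow_succ]; exact ih.mul h

theorem Rel.sub_one {g : Module.End K (SQ A B)} {f : Module.End K V} (h : Rel g f) :
    Rel (g - 1) (f - 1) := by
  intro b hb
  obtain ⟨h1, h2⟩ := h b hb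
  refine ⟨B.sub_mem h1 hb, ?_⟩
  show g _ - (A.comap B.subtype).mkQ ⟨b, hb⟩ = _
  rw [h2, ← map_sub]
  rfl

theorem Rel.ext {g g' : Module.End K (SQ A B)} {f f' : Module.End K V} (h : Rel g f)
    (h' : Rel g' f') (hf : f = f') : g = g' := by
  subst hf
  ext x
  obtain ⟨h1, h2⟩ := h x.1 x.2
  obtain ⟨h3, h4⟩ := h' x.1 x.2
  exact h2.trans h4.symm

theorem Rel.nilp {g : Module.End K (SQ A B)} {f : Module.End K V} (h : Rel g f)
    (hf : IsNilpotent (f - 1)) : IsNilpotent (g - 1) := by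
  obtain ⟨p, hp⟩ := hf
  refine ⟨p, ?_⟩
  have h1 := h.sub_one.pow p
  rw [hp] at h1
  refine h1.ext (f' := 0) (fun b _ => ⟨B.zero_mem, ?_⟩) rfl
  rw [LinearMap.zero_apply]
  exact ((A.comap B.subtype).mkQ.map_zero).symm

theorem exists_Rel (f : Module.End K V) (hB : ∀ v ∈ B, f v ∈ B) (hA : ∀ v ∈ A, f v ∈ A) :
    ∃ g : Module.End K (SQ A B), Rel g f := by
  refine ⟨(A.comap B.subtype).mapQ (A.comap B.subtype) (f.restrict hB) ?_, fun b hb => ?_⟩
  · intro x hx
    exact hA _ hx
  · exact ⟨hB b hb, rfl⟩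

theorem finrank_SQ [FiniteDimensional K V] (hAB : A ≤ B) :
    finrank K (SQ A B) + finrank K A = finrank K B := by
  rw [← Submodule.finrank_quotient_add_finrank (A.comap B.subtype),
    (Submodule.comapSubtypeEquivOfLe hAB).finrank_eq]

/-- a Steinberg system is trivial on small subquotients -/
theorem quot_triv [DecidableEq ι] [FiniteDimensional K V] (J' : Finset ι) (k : ℕ)
    (T : ι → ι → Module.End K V)
    (hR : ∀ (U : Type) [AddCommGroup U] [Module K U] [FiniteDimensional K U]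
      (S : ι → ι → Module.End K U), StSys J' k S → finrank K U < J'.card →
      ∀ a ∈ J', ∀ b ∈ J', a ≠ b → S a b = 1)
    (hT : StSys J' k T) (hAB : A ≤ B)
    (hB : ∀ a ∈ J', ∀ b ∈ J', a ≠ b → ∀ v ∈ B, T a b v ∈ B)
    (hA : ∀ a ∈ J', ∀ b ∈ J', a ≠ b → ∀ v ∈ A, T a b v ∈ A)
    (hdim : finrank K B < finrank K A + J'.card) :
    ∀ a ∈ J', ∀ b ∈ J', a ≠ b → ∀ v ∈ B, T a b v - v ∈ A := by
  classical
  have hex : ∀ a b, ∃ g : Module.End K (SQ A B), (a ∈ J' ∧ b ∈ J' ∧ a ≠ b) → Rel g (T a b) := by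
    intro a b
    by_cases h : a ∈ J' ∧ b ∈ J' ∧ a ≠ b
    · obtain ⟨g, hg⟩ := exists_Rel (A := A) (B := B) (T a b) (hB a h.1 b h.2.1 h.2.2)
        (hA a h.1 b h.2.1 h.2.2)
      exact ⟨g, fun _ => hg⟩
    · exact ⟨0, fun h' => absurd h' h⟩
  choose S hS using hex
  have hSys : StSys J' k S := by
    refine ⟨fun i hi j hj hij => ?_, fun i hi j hj a ha b hb hij hab hja hib => ?_,
      fun i hi j hj l hl hij hjl hil => ?_⟩
    · exact (hS i j ⟨hi, hj, hij⟩).nilp (hT.1 i hi j hj hij)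
    · exact ((hS i j ⟨hi, hj, hij⟩).mul (hS a b ⟨ha, hb, hab⟩)).ext
        ((hS a b ⟨ha, hb, hab⟩).mul (hS i j ⟨hi, hj, hij⟩))
        (hT.2.1 i hi j hj a ha b hb hij hab hja hib)
    · exact ((hS i j ⟨hi, hj, hij⟩).mul (hS j l ⟨hj, hl, hjl⟩)).ext
        (((hS i l ⟨hi, hl, hil⟩).pow k).mul
          ((hS j l ⟨hj, hl, hjl⟩).mul (hS i j ⟨hi, hj, hij⟩)))
        (hT.2.2 i hi j hj l hl hij hjl hil)
  have hfr := finrank_SQ (K := K) hAB
  intro a ha b hb hab v hv
  have h1 := hR (SQ A B) S hSys (by omega) a ha b hb hab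
  obtain ⟨h2, h3⟩ := hS a b ⟨ha, hb, hab⟩ v hv
  rw [h1] at h3
  have h4 : (A.comap B.subtype).mkQ ⟨T a b v, h2⟩ = (A.comap B.subtype).mkQ ⟨v, hv⟩ := h3.symm
  rw [Submodule.mkQ_apply, Submodule.mkQ_apply, Submodule.Quotient.eq] at h4
  exact h4

end

/-- powers of a unipotent operator on a vector moved by a fixed vector -/
theorem pow_fix {K V : Type} [Field K] [AddCommGroup V] [Module K V] (f : Module.End K V) (v : V)
    (h : f (f v - v) = f v - v) (s : ℕ) : (f ^ s) v = v + s • (f v - v) := by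
  induction s with
  | zero => rw [pow_zero, zero_smul, add_zero]; rfl
  | succ s ih =>
    rw [pow_succ']
    show f ((f ^ s) v) = _
    rw [ih, map_add, map_nsmul, h, succ_nsmul]
    abel

/-- **STP.** -/
theorem stp : S_STP := by
  intro K V ι _ _ _ _ _ _ J k T hk hJ hT i hi hne hR
  obtain ⟨hT1, hT2, hT3⟩ := id hT
  set J' := J.erase i with hJ'
  set W := FixW J i T with hW
  set W2 := FixW2 J i T with hW2
  have hJm : ∀ a ∈ J', a ∈ J ∧ a ≠ i := fun a ha =>
    ⟨Finset.mem_of_mem_erase ha, Finset.ne_of_mem_erase ha⟩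
  have hmW : ∀ v, v ∈ W ↔ ∀ a ∈ J', T i a v = v := by
    intro v
    rw [hW]
    unfold FixW
    simp only [Submodule.mem_iInf, LinearMap.mem_ker, LinearMap.sub_apply, Module.End.one_apply,
      sub_eq_zero]
    rfl
  have hmW2 : ∀ v, v ∈ W2 ↔ ∀ a ∈ J', T i a v - v ∈ W := by
    intro v
    rw [hW2]
    unfold FixW2
    simp only [Submodule.mem_iInf, Submodule.mem_comap, LinearMap.sub_apply,
      Module.End.one_apply]
    rfl
  have hle : W ≤ W2 := by
    intro v hv
    rw [hmW2]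
    intro a ha
    rw [(hmW v).1 hv a ha, sub_self]
    exact W.zero_mem
  -- commuting nilpotent operators
  have hnil : ∀ a ∈ J', IsNilpotent (T i a - 1) := fun a ha =>
    hT1 i hi a (hJm a ha).1 (hJm a ha).2.symm
  have hcm : ∀ a ∈ J', ∀ b ∈ J', T i a * T i b = T i b * T i a := by
    intro a ha b hb
    exact hT2 i hi a (hJm a ha).1 i hi b (hJm b hb).1 (hJm a ha).2.symm (hJm b hb).2.symm
      (hJm a ha).2 (hJm b hb).2.symm
  have hcm1 : ∀ a ∈ J', ∀ b ∈ J', (T i a - 1) * (T i b - 1) = (T i b - 1) * (T i a - 1) := by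
    intro a ha b hb
    have h1 : Commute (T i a - 1) (T i b - 1) :=
      Commute.sub_left (Commute.sub_right (hcm a ha b hb) (Commute.one_right _))
        (Commute.one_left _)
    exact h1
  obtain ⟨a₀, ha₀J, ha₀i, hTa₀⟩ := hne
  have ha₀ : a₀ ∈ J' := Finset.mem_erase.2 ⟨ha₀i, ha₀J⟩
  have hbt : (⊥ : Submodule K V) ≠ ⊤ := by
    intro h
    apply hTa₀
    ext v
    have hv : v = 0 := by
      have : v ∈ (⊤ : Submodule K V) := Submodule.mem_top
      rw [← h] at this
      exact (Submodule.mem_bot K).1 this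
    rw [hv, map_zero, map_zero]
  have hWt : W ≠ ⊤ := by
    intro h
    apply hTa₀
    ext v
    have hv : v ∈ W := by rw [h]; exact Submodule.mem_top
    rw [(hmW v).1 hv a₀ ha₀]
    rfl
  have hWb : W ≠ ⊥ := by
    obtain ⟨v, hv, hv'⟩ := rel_nil J' (fun a => T i a - 1) hnil hcm1 ⊥ (fun a _ v hv => by
      rw [(Submodule.mem_bot K).1 hv, map_zero]
      exact Submodule.zero_mem _) hbt
    rw [Submodule.ne_bot_iff]
    refine ⟨v, (hmW v).2 fun a ha => ?_, fun h0 => hv (by rw [h0]; exact Submodule.zero_mem _)⟩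
    have h1 := (Submodule.mem_bot K).1 (hv' a ha)
    rw [LinearMap.sub_apply, Module.End.one_apply, sub_eq_zero] at h1
    exact h1
  have hlt : W < W2 := by
    obtain ⟨v, hv, hv'⟩ := rel_nil J' (fun a => T i a - 1) hnil hcm1 W (fun a ha v hv => by
      rw [LinearMap.sub_apply, Module.End.one_apply, (hmW v).1 hv a ha, sub_self]
      exact W.zero_mem) hWt
    refine lt_of_le_of_ne hle (fun h => hv ?_)
    rw [h, hmW2]
    intro a ha
    have h1 := hv' a ha
    rw [LinearMap.sub_apply, Module.End.one_apply] at h1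
    exact h1
  refine ⟨hle, Submodule.one_le_finrank_iff.2 hWb, Submodule.finrank_lt_finrank_of_lt hlt, ?_⟩
  -- stability
  have hpowW : ∀ l ∈ J', ∀ s : ℕ, ∀ w ∈ W, (T i l ^ s) w = w := by
    intro l hl s w hw
    have h1 := (hmW w).1 hw l hl
    rw [pow_fix (T i l) w (by rw [h1, sub_self, map_zero]), h1, sub_self, smul_zero, add_zero]
  have hrel : ∀ j ∈ J', ∀ l ∈ J', j ≠ l → ∀ v, T i j (T j l v) = (T i l ^ k) (T j l (T i j v)) := by
    intro j hj l hl hjl v
    have h1 := hT3 i hi j (hJm j hj).1 l (hJm l hl).1 (hJm j hj).2.symm hjl (hJm l hl).2.symm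
    exact LinearMap.congr_fun h1 v
  have hcomm2 : ∀ a ∈ J', ∀ j ∈ J', ∀ l ∈ J', j ≠ l → a ≠ j → ∀ v,
      T i a (T j l v) = T j l (T i a v) := by
    intro a ha j hj l hl hjl haj v
    have h1 := hT2 i hi a (hJm a ha).1 j (hJm j hj).1 l (hJm l hl).1 (hJm a ha).2.symm hjl haj
      (hJm l hl).2.symm
    exact LinearMap.congr_fun h1 v
  have hstW : ∀ j ∈ J', ∀ l ∈ J', j ≠ l → ∀ v ∈ W, T j l v ∈ W := by
    intro j hj l hl hjl v hv
    rw [hmW]
    intro a ha
    by_cases haj : a = j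
    · subst haj
      rw [hrel a ha l hl hjl, (hmW v).1 hv a ha]
      have h1 : T i l * T a l = T a l * T i l :=
        hT2 i hi l (hJm l hl).1 a (hJm a ha).1 l (hJm l hl).1 (hJm l hl).2.symm hjl hjl.symm
          (hJm l hl).2.symm
      have h2 : T i l ^ k * T a l = T a l * T i l ^ k :=
        (Commute.pow_left (show Commute (T i l) (T a l) from h1) k)
      have h3 : (T i l ^ k) (T a l v) = T a l ((T i l ^ k) v) := LinearMap.congr_fun h2 v
      rw [h3, hpowW l hl k v hv]
    · rw [hcomm2 a ha j hj l hl hjl haj, (hmW v).1 hv a ha]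
  have hpow2 : ∀ l ∈ J', ∀ v ∈ W2, (T i l ^ k) v = v + k • (T i l v - v) := by
    intro l hl v hv
    refine pow_fix (T i l) v ?_ k
    exact (hmW _).1 ((hmW2 v).1 hv l hl) l hl
  have hstW2 : ∀ j ∈ J', ∀ l ∈ J', j ≠ l → ∀ v ∈ W2, T j l v ∈ W2 := by
    intro j hj l hl hjl v hv
    rw [hmW2]
    intro a ha
    by_cases haj : a = j
    · subst haj
      have h0 := (hmW2 v).1 hv a ha
      have h1 : T i l * T a l = T a l * T i l :=
        hT2 i hi l (hJm l hl).1 a (hJm a ha).1 l (hJm l hl).1 (hJm l hl).2.symm hjl hjl.symm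
          (hJm l hl).2.symm
      have h2 : T i l ^ k * T a l = T a l * T i l ^ k :=
        (Commute.pow_left (show Commute (T i l) (T a l) from h1) k)
      have h3 : (T i l ^ k) (T a l (T i a v)) = T a l ((T i l ^ k) (T i a v)) :=
        LinearMap.congr_fun h2 _
      have h4 : T i a (T a l v) - T a l v = T a l ((T i l ^ k) (T i a v) - v) := by
        rw [hrel a ha l hl hjl, h3, map_sub]
      rw [h4]
      apply hstW a ha l hl hjl
      have h5 : (T i l ^ k) (T i a v) - v = (T i l ^ k) (T i a v - v) + ((T i l ^ k) v - v) := by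
        rw [map_sub]
        abel
      rw [h5, hpowW l hl k _ h0, hpow2 l hl v hv, add_sub_cancel_left]
      exact W.add_mem h0 (W.smul_of_tower_mem k ((hmW2 v).1 hv l hl))
    · rw [hcomm2 a ha j hj l hl hjl haj, ← map_sub]
      exact hstW j hj l hl hjl _ ((hmW2 v).1 hv a ha)
  -- the Steinberg system with indices in `J'`
  have hT' : StSys J' k T := by
    refine ⟨fun a ha b hb => hT1 a (hJm a ha).1 b (hJm b hb).1,
      fun a ha b hb c hc d hd => hT2 a (hJm a ha).1 b (hJm b hb).1 c (hJm c hc).1 d (hJm d hd).1,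
      fun a ha b hb c hc => hT3 a (hJm a ha).1 b (hJm b hb).1 c (hJm c hc).1⟩
  have hcard : J'.card = J.card - 1 := Finset.card_erase_of_mem hi
  by_contra hcon
  push Not at hcon
  obtain ⟨hc1, hc2⟩ := hcon
  have q1 := quot_triv (A := ⊥) (B := W) J' k T hR hT' bot_le hstW (fun a _ b _ _ v hv => by
      rw [(Submodule.mem_bot K).1 hv, map_zero]
      exact Submodule.zero_mem _) (by rw [finrank_bot]; omega)
  have q2 := quot_triv (A := W) (B := W2) J' k T hR hT' hle hstW2 hstW hc2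
  apply hlt.not_ge
  intro v hv
  rw [hmW]
  intro l hl
  obtain ⟨j, hj, hjl⟩ : ∃ j ∈ J', j ≠ l := by
    have h1 : 1 < J'.card := by omega
    exact Finset.exists_mem_ne h1 l
  have hw' := q2 j hj l hl hjl v hv
  have hw := (hmW2 v).1 hv j hj
  set w' := T j l v - v with hw'def
  set w := T i j v - v with hwdef
  have e1 : T j l v = v + w' := by rw [hw'def]; abel
  have e2 : T i j v = v + w := by rw [hwdef]; abel
  have e3 : T i j w' = w' := (hmW w').1 hw' j hj
  have e4 : T j l w = w := by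
    have h1 := (Submodule.mem_bot K).1 (q1 j hj l hl hjl w hw)
    exact sub_eq_zero.1 h1
  have h1 := hrel j hj l hl hjl v
  rw [e1, map_add, e2, e3, map_add (T j l), e1, e4, map_add, map_add, hpowW l hl k w hw,
    hpowW l hl k w' hw', hpow2 l hl v hv] at h1
  have h2 : k • (T i l v - v) = 0 := by
    have h3 : v + w + w' = v + w + w' + k • (T i l v - v) := h1.trans (by abel)
    exact (left_eq_add.1 h3)
  have h3 : (k : K) • (T i l v - v) = 0 := by
    rw [Nat.cast_smul_eq_nsmul]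
    exact h2
  rcases smul_eq_zero.1 h3 with h4 | h4
  · exfalso
    have : k = 0 := by exact_mod_cast h4
    omega
  · exact sub_eq_zero.1 h4

end Pool.Agent.H295.GR
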